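import Pool.Agent.H998.HK.Spec3

/-!
# Task VSTAR2: the Hilbert space valued Carleman inequality from the scalar one
-/

set_option autoImplicit false

noncomputable section

namespace Pool.Agent.H140.HK

open MeasureTheory Filter Topology Set
open scoped ENNReal NNReal ComplexConjugate
open Pool.Agent.H998.HK

section basis

variable {H : Type} [NormedAddCommGroup H] [InnerProductSpace ℂ H]

lemma countable_of_hilbertBasis [TopologicalSpace.SeparableSpace H] {ι : Type}
    (b : HilbertBasis ι ℂ H) : Countable ι := by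
  have hpd : Pairwise (Function.onFun Disjoint (fun i => Metric.ball (b i) (1 / 2))) := by
    intro i j hij
    rw [Function.onFun, Set.disjoint_left]
    intro x hx hy
    have h1 : ‖b i - b j‖ < 1 := by
      rw [← dist_eq_norm]
      calc dist (b i) (b j) ≤ dist (b i) x + dist x (b j) := dist_triangle _ _ _
        _ < 1 / 2 + 1 / 2 := by
            rw [Metric.mem_ball] at hx hy
            rw [dist_comm (b i) x]
            exact add_lt_add hx hy
        _ = 1 := by norm_num
    have h2 : ‖b i - b j‖ ^ 2 = 2 := by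
      rw [@norm_sub_sq ℂ, b.orthonormal.2 hij, b.orthonormal.1 i, b.orthonormal.1 j]
      norm_num
    have h3 : ‖b i - b j‖ ^ 2 < 1 := by
      have := norm_nonneg (b i - b j)
      nlinarith
    linarith
  exact hpd.countable_of_isOpen_disjoint (fun _ => Metric.isOpen_ball)
    (fun i => ⟨b i, Metric.mem_ball_self (by norm_num)⟩)

/-- real coordinate functionals -/
def coord {ι : Type} (b : HilbertBasis ι ℂ H) (j : ι × Bool) : H →L[ℝ] ℝ :=
  if j.2 then Complex.reCLM.comp ((innerSL ℂ (b j.1)).restrictScalars ℝ)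
  else Complex.imCLM.comp ((innerSL ℂ (b j.1)).restrictScalars ℝ)

lemma coord_true {ι : Type} (b : HilbertBasis ι ℂ H) (i : ι) (h : H) :
    coord b (i, true) h = (inner ℂ (b i) h).re := by
  simp [coord]

lemma coord_false {ι : Type} (b : HilbertBasis ι ℂ H) (i : ι) (h : H) :
    coord b (i, false) h = (inner ℂ (b i) h).im := by
  simp [coord]

lemma parseval {ι : Type} (b : HilbertBasis ι ℂ H) (h : H) :
    ∑' j : ι × Bool, ENNReal.ofReal ((coord b j h) ^ 2) = ENNReal.ofReal (‖h‖ ^ 2) := by
  have h1 : HasSum (fun i => ‖inner ℂ (b i) h‖ ^ 2) (‖h‖ ^ 2) := by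
    have h2 := b.hasSum_inner_mul_inner h h
    have h3 := Complex.reCLM.hasSum h2
    have h4 : ‖h‖ ^ 2 = Complex.reCLM (inner ℂ h h) := by
      rw [@norm_sq_eq_re_inner ℂ]
      rfl
    rw [h4]
    convert h3 using 2 with i
    simp only [Function.comp_apply, Complex.reCLM_apply]
    rw [← inner_conj_symm h (b i), ← Complex.normSq_eq_norm_sq, ← Complex.normSq_eq_conj_mul_self]
    simp
  rw [show ∑' j : ι × Bool, ENNReal.ofReal ((coord b j h) ^ 2) =
      ∑' i, ∑' c, ENNReal.ofReal ((coord b (i, c) h) ^ 2) from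
    ENNReal.tsum_prod (f := fun i c => ENNReal.ofReal ((coord b (i, c) h) ^ 2)), ← h1.tsum_eq, ENNReal.ofReal_tsum_of_nonneg (fun _ => by positivity)
    h1.summable]
  congr 1
  funext i
  rw [tsum_bool, coord_true, coord_false, ← ENNReal.ofReal_add (by positivity) (by positivity)]
  congr 1
  rw [← Complex.normSq_eq_norm_sq, Complex.normSq_apply]
  ring

end basis

section comp

variable {H : Type} [NormedAddCommGroup H] [NormedSpace ℝ H] [CompleteSpace H]

lemma test_memLp {φ : E3 → ℝ} (hφ : Test φ) : MemLp φ 2 :=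
  hφ.1.continuous.memLp_of_hasCompactSupport hφ.2

lemma pd_memLp {φ : E3 → ℝ} (hφ : Test φ) (i : Fin 3) : MemLp (pd i φ) 2 := by
  have h1 : Continuous (pd i φ) := by
    have h2 : Continuous (fderiv ℝ φ) := hφ.1.continuous_fderiv (by simp)
    exact h2.clm_apply continuous_const
  apply h1.memLp_of_hasCompactSupport
  apply (hφ.2.fderiv (𝕜 := ℝ)).mono'
  intro x hx
  apply subset_closure
  rw [Function.mem_support] at hx ⊢
  intro h0
  apply hx
  rw [pd, h0]
  rfl

lemma int_smul {f : E3 → ℝ} {u : E3 → H} (hf : MemLp f 2) (hu : MemLp u 2) :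
    Integrable (fun x => f x • u x) := by
  have := hu.smul (r := 1) hf
  exact memLp_one_iff_integrable.mp this

omit [CompleteSpace H] in
lemma test_smul {φ : E3 → ℝ} (hφ : Test φ) {u : E3 → H} (hu : Integrable u) :
    Integrable (fun x => φ x • u x) := by
  obtain ⟨B, hB⟩ := hφ.2.exists_bound_of_continuous hφ.1.continuous
  exact hu.bdd_smul (𝕜 := ℝ) B hφ.1.continuous.aestronglyMeasurable (Eventually.of_forall hB)

omit [CompleteSpace H] in
lemma weakGrad_comp [CompleteSpace H] {u : E3 → H} {D : Fin 3 → E3 → H} (hu : MemLp u 2)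
    (hD : ∀ i, MemLp (D i) 2) (h : WeakGrad u D) (L : H →L[ℝ] ℝ) :
    WeakGrad (fun x => L (u x)) (fun i x => L (D i x)) := by
  intro i φ hφ
  have h1 := h i φ hφ
  have h2 := L.integral_comp_comm (int_smul (pd_memLp hφ i) hu)
  have h3 := L.integral_comp_comm (int_smul (test_memLp hφ) (hD i))
  simp only [map_smul] at h2 h3
  rw [h2, h3, h1, map_neg]

end comp

/-- `√|V| g₁` is integrable -/
lemma int_sqrtV {H : Type} [NormedAddCommGroup H] [NormedSpace ℝ H] {V : E3 → ℝ}
    (hV : Measurable V) {r0 M : ℝ}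
    (hM : (∫⁻ x in Metric.closedBall (0 : E3) r0, ENNReal.ofReal (|V x| ^ (3 / 2 : ℝ))) ^
      (2 / 3 : ℝ) ≤ ENNReal.ofReal M) {g : E3 → H} (hg : MemLp g 2)
    (hg0 : ∀ x, r0 < ‖x‖ → g x = 0) :
    ∃ s : E3 → ℝ, MemLp s 2 ∧ ∀ x, √|V x| • g x = s x • g x := by
  refine ⟨(Metric.closedBall (0 : E3) r0).indicator (fun x => √|V x|), ?_, ?_⟩
  · have hfin : ∫⁻ x in Metric.closedBall (0 : E3) r0, ENNReal.ofReal (|V x| ^ (3 / 2 : ℝ)) < ∞ := by
      by_contra hne
      rw [not_lt, top_le_iff] at hne
      rw [hne, ENNReal.top_rpow_of_pos (by norm_num), top_le_iff] at hM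
      exact ENNReal.ofReal_ne_top hM
    have hmeas : Measurable (fun x => √|V x|) := (hV.abs).sqrt
    rw [memLp_indicator_iff_restrict measurableSet_closedBall]
    rw [memLp_two_iff_integrable_sq hmeas.aestronglyMeasurable]
    refine ⟨(hmeas.pow_const 2).aestronglyMeasurable, ?_⟩
    rw [hasFiniteIntegral_iff_ofReal (Eventually.of_forall (fun x => by positivity))]
    calc ∫⁻ x in Metric.closedBall (0 : E3) r0, ENNReal.ofReal (√|V x| ^ 2)
        ≤ ∫⁻ x in Metric.closedBall (0 : E3) r0,
            (1 + ENNReal.ofReal (|V x| ^ (3 / 2 : ℝ))) := by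
          apply lintegral_mono
          intro x
          have h1 : √|V x| ^ 2 = |V x| := Real.sq_sqrt (abs_nonneg _)
          simp only
          rw [h1]
          have h2 : |V x| ≤ 1 + |V x| ^ (3 / 2 : ℝ) := by
            rcases le_total |V x| 1 with h | h
            · have : 0 ≤ |V x| ^ (3 / 2 : ℝ) := by positivity
              linarith
            · have : |V x| ^ (1 : ℝ) ≤ |V x| ^ (3 / 2 : ℝ) :=
                Real.rpow_le_rpow_of_exponent_le h (by norm_num)
              rw [Real.rpow_one] at this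
              linarith
          calc ENNReal.ofReal |V x| ≤ ENNReal.ofReal (1 + |V x| ^ (3 / 2 : ℝ)) :=
                ENNReal.ofReal_le_ofReal h2
            _ = _ := by
                rw [ENNReal.ofReal_add (by norm_num) (by positivity), ENNReal.ofReal_one]
      _ = (∫⁻ _ in Metric.closedBall (0 : E3) r0, 1) +
            ∫⁻ x in Metric.closedBall (0 : E3) r0, ENNReal.ofReal (|V x| ^ (3 / 2 : ℝ)) :=
          lintegral_add_left measurable_const _
      _ < ∞ := by
          apply ENNReal.add_lt_top.mpr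
          refine ⟨?_, hfin⟩
          rw [lintegral_one, Measure.restrict_apply_univ]
          exact measure_closedBall_lt_top
  · intro x
    by_cases hx : x ∈ Metric.closedBall (0 : E3) r0
    · rw [Set.indicator_of_mem hx]
    · have : r0 < ‖x‖ := by
        rw [mem_closedBall_zero_iff, not_le] at hx
        exact hx
      rw [hg0 x this, smul_zero, smul_zero]

lemma measurable_om2 (m : ℕ) : Measurable (om2 m) := by
  unfold om2
  fun_prop

/-- sum of the squares of the components -/
lemma lintegral_coord {H : Type} [NormedAddCommGroup H] [NormedSpace ℝ H] {J : Type} [Countable J]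
    (L : J → (H →L[ℝ] ℝ))
    (hL : ∀ h : H, ∑' j, ENNReal.ofReal ((L j h) ^ 2) = ENNReal.ofReal (‖h‖ ^ 2))
    {w : E3 → ℝ≥0∞} (hw : Measurable w) {u : E3 → H} (hu : MemLp u 2) :
    ∑' j, ∫⁻ x, w x * ENNReal.ofReal ((L j (u x)) ^ 2) =
      ∫⁻ x, w x * ENNReal.ofReal (‖u x‖ ^ 2) := by
  rw [← lintegral_tsum]
  · congr 1
    funext x
    rw [ENNReal.tsum_mul_left, hL]
  · intro j
    refine hw.aemeasurable.mul ?_
    have h1 : AEStronglyMeasurable (fun x => L j (u x)) volume :=
      (L j).continuous.comp_aestronglyMeasurable hu.1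
    exact (h1.aemeasurable.pow_const 2).ennreal_ofReal

theorem t_VSTAR2 : S_VSTAR2 := by
  rintro ⟨C, hC⟩
  refine ⟨C, ?_⟩
  intro H _ _ _ _ V κ ρ r0 M m u g₁ g₂ g₃ D hV hκ hρ hρr hr0 hm hM hVM hu hD h1 h2 h3 hwg heq h0
  obtain ⟨w, b, -⟩ := exists_hilbertBasis ℂ H
  haveI : Countable w := countable_of_hilbertBasis b
  set L : w × Bool → (H →L[ℝ] ℝ) := coord b with hLdef
  have hL : ∀ h : H, ∑' j, ENNReal.ofReal ((L j h) ^ 2) = ENNReal.ofReal (‖h‖ ^ 2) :=
    fun h => parseval b h
  -- the scalar inequality for each component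
  have key : ∀ j, (∫⁻ x, om2 m x * ENNReal.ofReal (|V x| * (L j (u x)) ^ 2)) +
      ENNReal.ofReal κ * ∫⁻ x, om2 m x * ENNReal.ofReal ((L j (u x)) ^ 2) ≤
      C * ENNReal.ofReal ((M + r0) ^ 2) *
        ∫⁻ x, om2 m x * ENNReal.ofReal ((L j (g₁ x)) ^ 2 + (L j (g₂ x)) ^ 2 +
          (L j (g₃ x)) ^ 2) := by
    intro j
    refine hC V κ ρ r0 M m (fun x => L j (u x)) (fun x => L j (g₁ x)) (fun x => L j (g₂ x))
      (fun x => L j (g₃ x)) (fun i x => L j (D i x)) hV hκ hρ hρr hr0 hm hM hVM
      ((L j).comp_memLp' hu) (fun i => (L j).comp_memLp' (hD i)) ((L j).comp_memLp' h1)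
      ((L j).comp_memLp' h2) ((L j).comp_memLp' h3) (weakGrad_comp hu hD hwg (L j)) ?_ ?_
    · intro φ hφ
      have e1 := heq φ hφ
      obtain ⟨s, hs, hsg⟩ := int_sqrtV hV hVM h1 (fun x hx => (h0 x (Or.inr hx)).2.1)
      have i1 : Integrable (fun x => ∑ i, pd i φ x • D i x + (κ ^ 2 * φ x) • u x) := by
        apply Integrable.add
        · exact integrable_finsetSum _ (fun i _ => int_smul (pd_memLp hφ i) (hD i))
        · exact int_smul ((test_memLp hφ).const_mul (κ ^ 2)) hu
      have i2 : Integrable (fun x => φ x • (√|V x| • g₁ x + √κ • g₂ x + g₃ x)) := by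
        have e2 : (fun x => φ x • (√|V x| • g₁ x + √κ • g₂ x + g₃ x)) =
            fun x => φ x • (s x • g₁ x) + φ x • (√κ • g₂ x) + φ x • g₃ x := by
          funext x
          rw [hsg x, smul_add, smul_add]
        rw [e2]
        apply Integrable.add
        · apply Integrable.add
          · exact test_smul hφ (int_smul hs h1)
          · exact int_smul (test_memLp hφ) (h2.const_smul (√κ))
        · exact int_smul (test_memLp hφ) h3
      have e3 := (L j).integral_comp_comm i1
      have e4 := (L j).integral_comp_comm i2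
      rw [e1, ← e4] at e3
      simp only [map_add, map_sum, map_smul, smul_eq_mul] at e3
      rw [show (fun x => ∑ i, L j (D i x) * pd i φ x + κ ^ 2 * (L j (u x) * φ x)) =
        fun x => ∑ i, pd i φ x * L j (D i x) + κ ^ 2 * φ x * L j (u x) from by
          funext x
          congr 1
          · exact Finset.sum_congr rfl (fun i _ => mul_comm _ _)
          · ring]
      rw [e3]
      congr 1
      funext x
      ring
    · intro x hx
      obtain ⟨a1, a2, a3, a4, a5⟩ := h0 x hx
      simp only [a1, a2, a3, a4, map_zero, true_and]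
      intro i
      rw [a5 i, map_zero]
  -- sum over the components
  have hs := ENNReal.tsum_le_tsum key
  rw [ENNReal.tsum_add, ENNReal.tsum_mul_left, ENNReal.tsum_mul_left] at hs
  have t1 : ∑' j, ∫⁻ x, om2 m x * ENNReal.ofReal (|V x| * (L j (u x)) ^ 2) =
      ∫⁻ x, om2 m x * ENNReal.ofReal (|V x| * ‖u x‖ ^ 2) := by
    have e5 := lintegral_coord L hL (w := fun x => om2 m x * ENNReal.ofReal |V x|)
      ((measurable_om2 m).mul hV.abs.ennreal_ofReal) hu
    simp only [mul_assoc, ← ENNReal.ofReal_mul (abs_nonneg _)] at e5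
    exact e5
  have t2 := lintegral_coord L hL (measurable_om2 m) hu
  have t3 : ∑' j, ∫⁻ x, om2 m x * ENNReal.ofReal ((L j (g₁ x)) ^ 2 + (L j (g₂ x)) ^ 2 +
      (L j (g₃ x)) ^ 2) =
      ∫⁻ x, om2 m x * ENNReal.ofReal (‖g₁ x‖ ^ 2 + ‖g₂ x‖ ^ 2 + ‖g₃ x‖ ^ 2) := by
    have hmeas : ∀ (g : E3 → H), MemLp g 2 → ∀ j, AEMeasurable (fun x => om2 m x *
        ENNReal.ofReal ((L j (g x)) ^ 2)) := by
      intro g hg j
      refine (measurable_om2 m).aemeasurable.mul ?_
      have h1 : AEStronglyMeasurable (fun x => L j (g x)) volume :=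
        (L j).continuous.comp_aestronglyMeasurable hg.1
      exact (h1.aemeasurable.pow_const 2).ennreal_ofReal
    have hmeas' : ∀ (g : E3 → H), MemLp g 2 → AEMeasurable (fun x => om2 m x *
        ENNReal.ofReal (‖g x‖ ^ 2)) := by
      intro g hg
      refine (measurable_om2 m).aemeasurable.mul ?_
      exact (hg.1.norm.aemeasurable.pow_const 2).ennreal_ofReal
    have e6 : ∀ j, ∫⁻ x, om2 m x * ENNReal.ofReal ((L j (g₁ x)) ^ 2 + (L j (g₂ x)) ^ 2 +
        (L j (g₃ x)) ^ 2) = (∫⁻ x, om2 m x * ENNReal.ofReal ((L j (g₁ x)) ^ 2)) +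
          (∫⁻ x, om2 m x * ENNReal.ofReal ((L j (g₂ x)) ^ 2)) +
          ∫⁻ x, om2 m x * ENNReal.ofReal ((L j (g₃ x)) ^ 2) := by
      intro j
      have m12 : AEMeasurable (fun x => om2 m x * ENNReal.ofReal ((L j) (g₁ x) ^ 2) +
          om2 m x * ENNReal.ofReal ((L j) (g₂ x) ^ 2)) := (hmeas g₁ h1 j).add (hmeas g₂ h2 j)
      rw [← lintegral_add_left' (hmeas g₁ h1 j), ← lintegral_add_left' m12]
      congr 1
      funext x
      rw [ENNReal.ofReal_add (by positivity) (by positivity),
        ENNReal.ofReal_add (by positivity) (by positivity), mul_add, mul_add]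
    simp only [e6]
    have m12 : AEMeasurable (fun x => om2 m x * ENNReal.ofReal (‖g₁ x‖ ^ 2) +
        om2 m x * ENNReal.ofReal (‖g₂ x‖ ^ 2)) := (hmeas' g₁ h1).add (hmeas' g₂ h2)
    rw [ENNReal.tsum_add, ENNReal.tsum_add, lintegral_coord L hL (measurable_om2 m) h1,
      lintegral_coord L hL (measurable_om2 m) h2, lintegral_coord L hL (measurable_om2 m) h3,
      ← lintegral_add_left' (hmeas' g₁ h1), ← lintegral_add_left' m12]
    congr 1
    funext x
    rw [ENNReal.ofReal_add (by positivity) (by positivity),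
      ENNReal.ofReal_add (by positivity) (by positivity), mul_add, mul_add]
  rw [t1, t2, t3] at hs
  exact hs

end Pool.Agent.H140.HK
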